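import Pool.Agent.Helper26.NE.Fin
import Pool.Agent.Helper34.SG.Side

/-!
# Meagre subgroups and closed null sets

We answer Q1 in the negative, for both groups: it is consistent with ZFC that every meagre subgroup
of the Cantor group and every meagre subgroup of the real line belongs to the ideal `ℰ` generated
by the closed null sets. In particular every subgroup which is both null and meagre belongs to `ℰ`.

The model is a finite support iteration (of the length of an ordinal of cofinality greater than
`ℵ₁`) of Laver-Hechler forcing, the forcing `𝕃(Fr)` for the Frechet filter. Every stage adds a set
in `ℰ` which covers all closed null sets of the earlier stages. The main point is a preservation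
theorem: for every name `T` of a closed set and every stage `β` there is a countable set `D` of
names of closed sets of the stage `β` such that for every closed set `C` of the stage `β` which
contains `T`, either `T` is contained in a closed null set with a code of the stage `β`, or `C`
contains a member of `D` of positive measure. By the theorem of Steinhaus, a meagre subgroup which
contains a point `x` outside the closed null sets with codes of a suitable stage `β` then contains
two points whose sum escapes the given nowhere dense sets.
-/

namespace Pool.Agent.Results.MP_ff0b57_lc.MeagreSubgroups

open Pool.Agent.Helper26.NE

/-- **Main theorem.** There is a countable transitive model `N` of ZFC such that in `N` every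
meagre subgroup of the Cantor group and every meagre subgroup of the real line belongs to `ℰ`. -/
theorem result : ∃ N : Set ZFSet.{0}, N.Countable ∧ Pool.Agent.Helper96.Fc.IsZFC N ∧
    (∀ G, Subgroup N G → Meagre N G → InE N G) ∧
      ∀ G, SubgroupR N G → MeagreR N G → InER N G := by
  obtain ⟨P, _, _, A, E, _, hS⟩ := Pool.Agent.Helper34.SG.exists_side
  exact statement_of_side hS

end Pool.Agent.Results.MP_ff0b57_lc.MeagreSubgroups
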